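import Pool.Agent.H29.LG.F03
import Pool.Agent.H29.LT.C09

/-!
# Non-vanishing `ℓ²`-torsion of HNN extensions of free groups with a malnormal step

`B` is a free group of finite rank `n`, `C ≤ A < D` are subgroups of `B` freely generated by
`n` elements, `C` is compressed in `B` (not contained in a subgroup generated by fewer than
`n` elements) and `A` is malnormal in `D`.  `G = ⟨B, s | s c'_k s⁻¹ = c_k⟩`, where `c` is a basis of
`C` and `c'` is any free family of `n` elements of `B`.

The group `G` has Euler characteristic `0` and its presentation complex is a finite `K(G,1)`.  The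
theorem says that the `ℓ²`-torsion of that complex is defined and negative, in particular non-zero.
It applies in particular to all free-by-cyclic groups having such a splitting.
-/

namespace Pool.Agent.Results.MP_03e088_al.MalnormalTower

open LT

variable {β : Type} [Fintype β] [DecidableEq β]

theorem result (c a d c' : β → FreeGroup β)
    (hc : Function.Injective (FreeGroup.lift c)) (ha : Function.Injective (FreeGroup.lift a))
    (hd : Function.Injective (FreeGroup.lift d)) (hc' : Function.Injective (FreeGroup.lift c'))
    (hcomp : ∀ S : Finset (FreeGroup β),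
      (FreeGroup.lift c).range ≤ Subgroup.closure (S : Set (FreeGroup β)) →
        Fintype.card β ≤ S.card)
    (hca : (FreeGroup.lift c).range ≤ (FreeGroup.lift a).range)
    (had : (FreeGroup.lift a).range < (FreeGroup.lift d).range)
    (hmal : ∀ γ ∈ (FreeGroup.lift d).range, γ ∉ (FreeGroup.lift a).range →
      ∀ k ∈ (FreeGroup.lift a).range, γ * k * γ⁻¹ ∈ (FreeGroup.lift a).range → k = 1)
    {G : Type} [Group G] (e : HG c c' ≃* G) :
    DetClass (Lap2 (fun b => e (PresentedGroup.of b)) (hnnRel c c')) ∧
    DetClass (Lap0 (fun b : β ⊕ Unit => e (PresentedGroup.of b))) ∧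
    rho (fun b => e (PresentedGroup.of b)) (hnnRel c c') < 0 := by
  obtain ⟨c₀, hc₀, hJ⟩ := Jc_tower c a d hc ha hd hcomp hca had hmal
  have hLB := LB_mapM (e : HG c c' →* G) e.injective (c09_LB c c' hc hc' hJ)
  have hcomp : ((e : HG c c' →* G).comp
      (FreeGroup.lift fun b => (PresentedGroup.of b : HG c c'))) =
      FreeGroup.lift fun b => e (PresentedGroup.of b) := by
    ext b
    simp
  have hcomp' : ∀ w, FreeGroup.lift (fun b => e (PresentedGroup.of b : HG c c')) w =
      e (FreeGroup.lift (fun b => (PresentedGroup.of b : HG c c')) w) := fun w => by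
    rw [← hcomp]; rfl
  have hS : LB (fun k b => foxM (fun b => e (PresentedGroup.of b)) (hnnRel c c') k
      (Sum.inl b) : Matrix β β (MonoidAlgebra ℂ G)) c₀ := by
    have h2 : (fun k b => foxM (fun b => e (PresentedGroup.of b)) (hnnRel c c') k
        (Sum.inl b) : Matrix β β (MonoidAlgebra ℂ G)) =
        mapM (e : HG c c' →* G) (fun k b => foxM (fun b => (PresentedGroup.of b :
          HG c c')) (hnnRel c c') k (Sum.inl b)) := by
      funext k
      funext b
      change MonoidAlgebra.mapDomain (FreeGroup.lift fun b => e (PresentedGroup.of b))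
          (fox (Sum.inl b) (hnnRel c c' k)) =
        MonoidAlgebra.mapDomain (e : HG c c' →* G) (MonoidAlgebra.mapDomain
          (FreeGroup.lift fun b => (PresentedGroup.of b : HG c c'))
          (fox (Sum.inl b) (hnnRel c c' k)))
      rw [← hcomp]
      induction fox (Sum.inl b) (hnnRel c c' k) using MonoidAlgebra.induction_linear with
      | zero => rw [MonoidAlgebra.mapDomain_zero, MonoidAlgebra.mapDomain_zero,
          MonoidAlgebra.mapDomain_zero]
      | add u v hu hv => rw [MonoidAlgebra.mapDomain_add, hu, hv, MonoidAlgebra.mapDomain_add,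
          MonoidAlgebra.mapDomain_add]
      | single g r => rw [MonoidAlgebra.mapDomain_single, MonoidAlgebra.mapDomain_single,
          MonoidAlgebra.mapDomain_single, MonoidHom.comp_apply]
    rw [h2]
    exact hLB
  have h := rho_le (fun b => e (PresentedGroup.of b)) (hnnRel c c')
    (fun k => by rw [hcomp', c09_single, map_one])
    ((c09_psi c c').comp (e.symm : G →* HG c c'))
    (by
      have : ((c09_psi c c').comp (e.symm : G →* HG c c'))
          (e (PresentedGroup.of (Sum.inr ()))) = c09_psi c c' (PresentedGroup.of (Sum.inr ())) := by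
        rw [MonoidHom.comp_apply]
        congr 1
        exact e.symm_apply_apply _
      rw [this, c09_psi_s]) hS
  exact ⟨h.1, h.2.1, lt_of_le_of_lt h.2.2 (by linarith)⟩

end Pool.Agent.Results.MP_03e088_al.MalnormalTower
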